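import Pool.Agent.Helper9K9.DM.Stm

/-!
# DM: PRM and INT
-/

set_option autoImplicit false

universe v

namespace Pool.Agent.Helper88K9.DM

open Pool.Agent.Helper9K9.DM

/-- **PRM.** -/
theorem prm : S_PRM.{v} := by
  intro K _ H _ _ A B hA hB
  obtain ⟨v, hv⟩ : ∃ v, B v ≠ 0 := by
    by_contra h
    push Not at h
    exact hB (LinearMap.ext h)
  obtain ⟨w, hw⟩ : ∃ w, A w ≠ 0 := by
    by_contra h
    push Not at h
    exact hA (LinearMap.ext h)
  obtain ⟨φ, hφ⟩ : ∃ φ : Module.Dual K H, φ (B v) ≠ 0 := by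
    by_contra h
    push Not at h
    exact hv ((Module.forall_dual_apply_eq_zero_iff K (B v)).1 h)
  refine ⟨φ.smulRight w, fun h => ?_⟩
  have h1 : A (φ.smulRight w (B v)) = 0 := by
    have h2 := LinearMap.congr_fun h v
    exact h2
  rw [LinearMap.smulRight_apply, map_smul] at h1
  exact (smul_ne_zero hφ hw) h1

/-- **INT.** -/
theorem int : S_INT.{v} := by
  intro K _ H _ _ _ A hA
  have h : LinearMap.IsProj (LinearMap.range A) A := by
    refine ⟨fun x => LinearMap.mem_range_self A x, ?_⟩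
    rintro _ ⟨y, rfl⟩
    exact LinearMap.congr_fun hA y
  exact ⟨_, h.trace⟩

end Pool.Agent.Helper88K9.DM
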